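import Mathlib

/-!
# MP_5eb3ac_co : a unistable polyhedron resting on its face of least diameter

The polyhedron has 21 faces. It is the intersection of the cylinder (parallel to the x-axis) over the 18-gon with
vertices (±23,0), (±37,8), (±50,23), (±55,37), (±56,55), (±51,74), (±42,88), (±25,103), (0,113)
in the (y,z)-plane (a profile of the type of the double spiral of Guy, the bottom edge being one of its
sides) with the set |x| ≤ min (1 + 2245 z, 2266 - 20 z). The base
z = 0 is the rectangle |x| ≤ 1, |y| ≤ 23, of squared diameter 2120, while all other faces are long.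
The centroid is (0,0,h) with 0 ≤ h ≤ 40, and for each plane of a face other than the base, the foot
of the perpendicular from (0,0,h) violates one of the other inequalities.
-/

set_option autoImplicit false

namespace Pool.Agent.Results.MP_5eb3ac_co.LeastRestingFace

open MeasureTheory Set
open scoped RealInnerProductSpace

/-- Euclidean 3-space. -/
abbrev E3 := EuclideanSpace ℝ (Fin 3)

/-- The centre of mass of the solid P of uniform density. -/
noncomputable def centroid (P : Set E3) : E3 := (volume P).toReal⁻¹ • ∫ x in P, x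

/-- Convex polyhedron: a compact set with nonempty interior which is the intersection of finitely
many closed half-spaces. -/
structure IsConvexPolyhedron (P : Set E3) : Prop where
  isCompact : IsCompact P
  nonempty_interior : (interior P).Nonempty
  halfspaces : ∃ (m : ℕ) (N : Fin m → E3) (C : Fin m → ℝ), P = {x | ∀ i, ⟪N i, x⟫ ≤ C i}

/-- Two-dimensional face of P: the intersection of P with a supporting plane, when this
intersection has affine dimension 2. -/
def IsFace (P F : Set E3) : Prop :=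
  ∃ (n : E3) (β : ℝ), n ≠ 0 ∧ (∀ x ∈ P, ⟪n, x⟫ ≤ β) ∧ F = {x | x ∈ P ∧ ⟪n, x⟫ = β} ∧
    Module.finrank ℝ (vectorSpan ℝ F) = 2

/-- P is stable on F: the foot q of the perpendicular from the centroid of P to the plane spanned
by F lies in the relative interior of F. -/
def StableOn (P F : Set E3) : Prop :=
  ∃ q ∈ intrinsicInterior ℝ F, ∀ v ∈ vectorSpan ℝ F, ⟪centroid P - q, v⟫ = 0

/-- first coordinates of the outer normals of the 21 faces -/
def nx : Fin 21 → ℤ := ![0, 1, -1, 1, -1, 0, 0, 0, 0, 0, 0, 0, 0, 0, 0, 0, 0, 0, 0, 0, 0]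
/-- second coordinates of the outer normals -/
def ny : Fin 21 → ℤ :=
  ![0, 0, 0, 0, 0, 4, -4, 15, -15, 14, -14, 18, -18, 19, -19, 14, -14, 15, -15, 2, -2]
/-- third coordinates of the outer normals -/
def nz : Fin 21 → ℤ :=
  ![-1, -2245, -2245, 20, 20, -7, -7, -13, -13, -5, -5, -1, -1, 5, 5, 9, 9, 17, 17, 5, 5]
/-- right-hand sides of the 21 inequalities -/
def cc : Fin 21 → ℤ :=
  ![0, 1, 1, 2266, 2266, 92, 92, 451, 451, 585, 585, 953, 953, 1339, 1339, 1380, 1380,
    2126, 2126, 565, 565]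
/-- index of a constraint violated by the foot of the perpendicular on the plane `i`. -/
def ww : Fin 21 → Fin 21 :=
  ![0, 0, 0, 19, 19, 0, 0, 5, 6, 7, 8, 9, 10, 11, 12, 13, 14, 15, 16, 17, 18]

/-- The outer normals. -/
noncomputable def N (i : Fin 21) : E3 := !₂[(nx i : ℝ), (ny i : ℝ), (nz i : ℝ)]

/-- The polyhedron. -/
def P : Set E3 := {x | ∀ i, ⟪N i, x⟫ ≤ (cc i : ℝ)}

lemma inner_N (i : Fin 21) (x : E3) :
    ⟪N i, x⟫ = (nx i : ℝ) * x 0 + (ny i : ℝ) * x 1 + (nz i : ℝ) * x 2 := by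
  simp [N, PiLp.inner_apply, Fin.sum_univ_three]
  ring

lemma inner_coord (x y : E3) : ⟪x, y⟫ = x 0 * y 0 + x 1 * y 1 + x 2 * y 2 := by
  simp [PiLp.inner_apply, Fin.sum_univ_three]
  ring

def Cons (x y z : ℝ) : Prop := ∀ i : Fin 21, (nx i : ℝ) * x + (ny i : ℝ) * y + (nz i : ℝ) * z ≤ cc i

lemma mem_P {x : E3} : x ∈ P ↔ Cons (x 0) (x 1) (x 2) := by
  simp only [P, Cons, mem_ofPred_eq, inner_N]

structure Cons' (x y z : ℝ) : Prop where
  h0 : 0 ≤ z
  h1 : x ≤ 1 + 2245 * z
  h2 : -x ≤ 1 + 2245 * z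
  h3 : x ≤ 2266 - 20 * z
  h4 : -x ≤ 2266 - 20 * z
  h5 : 4 * y - 7 * z ≤ 92
  h6 : -4 * y - 7 * z ≤ 92
  h7 : 15 * y - 13 * z ≤ 451
  h8 : -15 * y - 13 * z ≤ 451
  h9 : 14 * y - 5 * z ≤ 585
  h10 : -14 * y - 5 * z ≤ 585
  h11 : 18 * y - z ≤ 953
  h12 : -18 * y - z ≤ 953
  h13 : 19 * y + 5 * z ≤ 1339
  h14 : -19 * y + 5 * z ≤ 1339
  h15 : 14 * y + 9 * z ≤ 1380
  h16 : -14 * y + 9 * z ≤ 1380
  h17 : 15 * y + 17 * z ≤ 2126
  h18 : -15 * y + 17 * z ≤ 2126
  h19 : 2 * y + 5 * z ≤ 565
  h20 : -2 * y + 5 * z ≤ 565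

lemma cons_iff {x y z : ℝ} : Cons x y z ↔ Cons' x y z := by
  constructor
  · intro h
    constructor
    · have := h 0; simp [nx, ny, nz, cc] at this; linarith
    · have := h 1; simp [nx, ny, nz, cc] at this; linarith
    · have := h 2; simp [nx, ny, nz, cc] at this; linarith
    · have := h 3; simp [nx, ny, nz, cc] at this; linarith
    · have := h 4; simp [nx, ny, nz, cc] at this; linarith
    · have := h 5; simp [nx, ny, nz, cc] at this; linarith
    · have := h 6; simp [nx, ny, nz, cc] at this; linarith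
    · have := h 7; simp [nx, ny, nz, cc] at this; linarith
    · have := h 8; simp [nx, ny, nz, cc] at this; linarith
    · have := h 9; simp [nx, ny, nz, cc] at this; linarith
    · have := h 10; simp [nx, ny, nz, cc] at this; linarith
    · have := h 11; simp [nx, ny, nz, cc] at this; linarith
    · have := h 12; simp [nx, ny, nz, cc] at this; linarith
    · have := h 13; simp [nx, ny, nz, cc] at this; linarith
    · have := h 14; simp [nx, ny, nz, cc] at this; linarith
    · have := h 15; simp [nx, ny, nz, cc] at this; linarith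
    · have := h 16; simp [nx, ny, nz, cc] at this; linarith
    · have := h 17; simp [nx, ny, nz, cc] at this; linarith
    · have := h 18; simp [nx, ny, nz, cc] at this; linarith
    · have := h 19; simp [nx, ny, nz, cc] at this; linarith
    · have := h 20; simp [nx, ny, nz, cc] at this; linarith
  · rintro ⟨h0, h1, h2, h3, h4, h5, h6, h7, h8, h9, h10, h11, h12, h13, h14, h15, h16, h17, h18,
      h19, h20⟩ i
    fin_cases i <;> simp [nx, ny, nz, cc] <;> linarith

/-! ### witnesses, by integer arithmetic -/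

lemma foot_bound (i : Fin 21) (hi : i ≠ 0) {h : ℝ} (h0 : 0 ≤ h) (h1 : h ≤ 40) :
    0 < ((nx i : ℝ) ^ 2 + (ny i : ℝ) ^ 2 + (nz i : ℝ) ^ 2) * ((nz (ww i) : ℝ) * h - cc (ww i)) +
      ((cc i : ℝ) - nz i * h) * ((nx i : ℝ) * nx (ww i) + ny i * ny (ww i) + nz i * nz (ww i)) := by
  fin_cases i
  · exact absurd rfl hi
  all_goals
    simp [nx, ny, nz, cc, ww]
    norm_num
    linarith

lemma N_ne_zero (i : Fin 21) : N i ≠ 0 := by
  intro h
  have h0 : (N i) 0 = 0 := by rw [h]; rfl
  have h1 : (N i) 1 = 0 := by rw [h]; rfl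
  have h2 : (N i) 2 = 0 := by rw [h]; rfl
  simp [N] at h0 h1 h2
  revert h0 h1 h2
  fin_cases i <;> simp [nx, ny, nz]

instance : Fact (Module.finrank ℝ E3 = 2 + 1) := ⟨by simp [E3]⟩

lemma finrank_perp (i : Fin 21) : Module.finrank ℝ ((ℝ ∙ N i)ᗮ : Submodule ℝ E3) = 2 :=
  Submodule.finrank_orthogonal_span_singleton (N_ne_zero i)

lemma face_class {F : Set E3} (hF : IsFace P F) :
    ∃ i : Fin 21, F = {x | x ∈ P ∧ ⟪N i, x⟫ = (cc i : ℝ)} ∧
      vectorSpan ℝ F = (ℝ ∙ N i)ᗮ := by
  obtain ⟨n, β, hn, hmax, hFeq, hfin⟩ := hF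
  have hne : F.Nonempty := by
    by_contra h
    rw [Set.not_nonempty_iff_eq_empty] at h
    rw [h, vectorSpan_empty] at hfin
    simp at hfin
  have hFP : ∀ x ∈ F, x ∈ P := by
    intro x hx; rw [hFeq] at hx; exact hx.1
  have hFn : ∀ x ∈ F, ⟪n, x⟫ = β := by
    intro x hx; rw [hFeq] at hx; exact hx.2
  have key : ∃ i : Fin 21, ∀ x ∈ F, ⟪N i, x⟫ = (cc i : ℝ) := by
    by_contra hcon
    push Not at hcon
    choose x hxF hx using hcon
    have hlt : ∀ i, ⟪N i, x i⟫ < (cc i : ℝ) := fun i =>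
      lt_of_le_of_ne (hFP _ (hxF i) i) (hx i)
    set q : E3 := (21 : ℝ)⁻¹ • ∑ i, x i with hqdef
    have hq : ∀ i, ⟪N i, q⟫ < (cc i : ℝ) := by
      intro i
      rw [hqdef, inner_smul_right, inner_sum]
      have h1 : ∑ j, ⟪N i, x j⟫ < ∑ _j : Fin 21, (cc i : ℝ) :=
        Finset.sum_lt_sum (fun j _ => hFP _ (hxF j) i) ⟨i, Finset.mem_univ _, hlt i⟩
      simp only [Finset.sum_const, Finset.card_univ, Fintype.card_fin, nsmul_eq_mul] at h1
      push_cast at h1
      linarith
    have hqn : ⟪n, q⟫ = β := by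
      rw [hqdef, inner_smul_right, inner_sum, Finset.sum_congr rfl (fun j _ => hFn _ (hxF j))]
      simp
    have hopen : IsOpen {t : ℝ | ∀ i, ⟪N i, q + t • n⟫ < (cc i : ℝ)} := by
      have : {t : ℝ | ∀ i, ⟪N i, q + t • n⟫ < (cc i : ℝ)}
          = ⋂ i, {t : ℝ | ⟪N i, q + t • n⟫ < (cc i : ℝ)} := by
        ext t; simp
      rw [this]
      exact isOpen_iInter_of_finite fun i => isOpen_lt (by fun_prop) continuous_const
    have h0mem : (0 : ℝ) ∈ {t : ℝ | ∀ i, ⟪N i, q + t • n⟫ < (cc i : ℝ)} := by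
      intro i; simpa using hq i
    obtain ⟨δ, hδ, hball⟩ := Metric.isOpen_iff.1 hopen 0 h0mem
    have hmem : δ / 2 ∈ Metric.ball (0 : ℝ) δ := by
      rw [Metric.mem_ball, Real.dist_eq, sub_zero, abs_of_pos (by linarith)]; linarith
    have hP : q + (δ / 2) • n ∈ P := fun i => (hball hmem i).le
    have h2 := hmax _ hP
    rw [inner_add_right, hqn, inner_smul_right, real_inner_self_eq_norm_sq] at h2
    have h3 : 0 < ‖n‖ := norm_pos_iff.2 hn
    have h4 : 0 < δ / 2 * ‖n‖ ^ 2 := by positivity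
    linarith
  obtain ⟨i, hi⟩ := key
  have hle : vectorSpan ℝ F ≤ (ℝ ∙ N i)ᗮ := by
    rw [vectorSpan_def, Submodule.span_le]
    rintro v ⟨x, hx, y, hy, rfl⟩
    rw [SetLike.mem_coe, Submodule.mem_orthogonal_singleton_iff_inner_right]
    simp only [vsub_eq_sub, inner_sub_right, hi x hx, hi y hy, sub_self]
  have heq : vectorSpan ℝ F = (ℝ ∙ N i)ᗮ :=
    Submodule.eq_of_le_of_finrank_eq hle (by rw [hfin, finrank_perp])
  have hnmem : n ∈ (vectorSpan ℝ F)ᗮ := by
    rw [Submodule.mem_orthogonal]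
    intro v hv
    rw [vectorSpan_def] at hv
    induction hv using Submodule.span_induction with
    | mem v hv =>
      obtain ⟨x, hx, y, hy, rfl⟩ := hv
      simp only [vsub_eq_sub, inner_sub_left]
      rw [real_inner_comm, hFn x hx, real_inner_comm, hFn y hy, sub_self]
    | zero => simp
    | add a b _ _ ha hb => rw [inner_add_left, ha, hb, add_zero]
    | smul a x _ hx => rw [inner_smul_left, hx, mul_zero]
  rw [heq, Submodule.orthogonal_orthogonal, Submodule.mem_span_singleton] at hnmem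
  obtain ⟨t, ht⟩ := hnmem
  refine ⟨i, ?_, heq⟩
  ext x
  constructor
  · intro hx; exact ⟨hFP x hx, hi x hx⟩
  · rintro ⟨hxP, hx⟩
    obtain ⟨p, hp⟩ := hne
    rw [hFeq]
    refine ⟨hxP, ?_⟩
    have h1 := hFn p hp
    rw [← ht, inner_smul_left, hi p hp] at h1
    rw [← ht, inner_smul_left, hx]
    exact h1

lemma foot_absurd (i : Fin 21) (hi : i ≠ 0) {c : E3} (hc0 : c 0 = 0) (hc1 : c 1 = 0)
    (h0 : 0 ≤ c 2) (h1 : c 2 ≤ 40) {q : E3} (hqP : q ∈ P) (hq : ⟪N i, q⟫ = (cc i : ℝ))
    (hperp : ∀ v ∈ ((ℝ ∙ N i)ᗮ : Submodule ℝ E3), ⟪c - q, v⟫ = 0) : False := by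
  have hmem : c - q ∈ ((ℝ ∙ N i)ᗮᗮ : Submodule ℝ E3) := by
    rw [Submodule.mem_orthogonal']
    exact hperp
  rw [Submodule.orthogonal_orthogonal, Submodule.mem_span_singleton] at hmem
  obtain ⟨t, ht⟩ := hmem
  have hq' : q = c - t • N i := by rw [ht]; abel
  have hw := hqP (ww i)
  rw [hq', inner_sub_right, inner_smul_right] at hq hw
  have hfb := foot_bound i hi h0 h1
  have e1 : ⟪N i, N i⟫ = (nx i : ℝ) ^ 2 + (ny i : ℝ) ^ 2 + (nz i : ℝ) ^ 2 := by
    rw [inner_coord]; simp [N]; ring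
  have e2 : ⟪N (ww i), N i⟫ = (nx i : ℝ) * nx (ww i) + ny i * ny (ww i) + nz i * nz (ww i) := by
    rw [inner_coord]; simp [N]; ring
  have e3 : ⟪N i, c⟫ = (nz i : ℝ) * c 2 := by
    rw [inner_N, hc0, hc1]; ring
  have e4 : ⟪N (ww i), c⟫ = (nz (ww i) : ℝ) * c 2 := by
    rw [inner_N, hc0, hc1]; ring
  have hpos : 0 < (nx i : ℝ) ^ 2 + (ny i : ℝ) ^ 2 + (nz i : ℝ) ^ 2 := by
    rw [← e1, real_inner_self_eq_norm_sq]
    have := norm_pos_iff.2 (N_ne_zero i)
    positivity
  rw [e3, e1] at hq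
  rw [e4, e2] at hw
  have h5 : t * ((nx i : ℝ) ^ 2 + (ny i : ℝ) ^ 2 + (nz i : ℝ) ^ 2) = nz i * c 2 - cc i := by
    linarith
  generalize (nx i : ℝ) ^ 2 + (ny i : ℝ) ^ 2 + (nz i : ℝ) ^ 2 = S at hfb hpos h5
  generalize (nx i : ℝ) * nx (ww i) + ny i * ny (ww i) + nz i * nz (ww i) = D at hfb hw
  have h6 : S * ((nz (ww i) : ℝ) * c 2 - cc (ww i)) + ((cc i : ℝ) - nz i * c 2) * D
      = S * ((nz (ww i) : ℝ) * c 2 - cc (ww i) - t * D) := by
    have : (cc i : ℝ) - nz i * c 2 = - (t * S) := by linarith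
    rw [this]; ring
  rw [h6] at hfb
  have h7 : (nz (ww i) : ℝ) * c 2 - cc (ww i) - t * D ≤ 0 := by linarith
  have h8 := mul_nonpos_of_nonneg_of_nonpos hpos.le h7
  linarith

/-! ### the polyhedron -/

lemma P_closed : IsClosed P := by
  have : P = ⋂ i, {x : E3 | ⟪N i, x⟫ ≤ (cc i : ℝ)} := by
    ext x; simp [P]
  rw [this]
  exact isClosed_iInter fun i => isClosed_le (by fun_prop) continuous_const

lemma P_bounded : Bornology.IsBounded P := by
  rw [isBounded_iff_forall_norm_le]
  refine ⟨3000, fun x hx => ?_⟩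
  have h := cons_iff.1 (mem_P.1 hx)
  have hn : ‖x‖ ^ 2 = x 0 ^ 2 + x 1 ^ 2 + x 2 ^ 2 := by
    rw [EuclideanSpace.norm_sq_eq]; simp [Fin.sum_univ_three]
  have z1 : x 2 ≤ 113 := by linarith [h.h19, h.h20]
  have z0 := h.h0
  have a1 : x 0 ≤ 2266 := by linarith [h.h3]
  have a2 : -2266 ≤ x 0 := by linarith [h.h4]
  have b1 : x 1 ≤ 60 := by linarith [h.h11]
  have b2 : -60 ≤ x 1 := by linarith [h.h12]
  have : ‖x‖ ^ 2 ≤ 3000 ^ 2 := by
    rw [hn]
    nlinarith [mul_nonneg (sub_nonneg.2 a1) (neg_le_iff_add_nonneg.1 a2), mul_nonneg (sub_nonneg.2 b1) (neg_le_iff_add_nonneg.1 b2), mul_nonneg z0 (sub_nonneg.2 z1)]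
  exact (pow_le_pow_iff_left₀ (norm_nonneg x) (by norm_num) (by norm_num)).1 this

lemma P_compact : IsCompact P := Metric.isCompact_of_isClosed_isBounded P_closed P_bounded

lemma P_interior : (interior P).Nonempty := by
  have hopen : IsOpen {x : E3 | ∀ i, ⟪N i, x⟫ < (cc i : ℝ)} := by
    have : {x : E3 | ∀ i, ⟪N i, x⟫ < (cc i : ℝ)} = ⋂ i, {x : E3 | ⟪N i, x⟫ < (cc i : ℝ)} := by
      ext t; simp
    rw [this]
    exact isOpen_iInter_of_finite fun i => isOpen_lt (by fun_prop) continuous_const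
  refine ⟨!₂[0, 0, 1], mem_interior.2 ⟨_, fun x hx i => (hx i).le, hopen, ?_⟩⟩
  intro i
  rw [inner_N]
  fin_cases i <;> simp [nx, ny, nz, cc] <;> norm_num

lemma P_poly : IsConvexPolyhedron P :=
  ⟨P_compact, P_interior, 21, N, fun i => (cc i : ℝ), rfl⟩

def Fc (i : Fin 21) : Set E3 := {x | x ∈ P ∧ ⟪N i, x⟫ = (cc i : ℝ)}

lemma mem_F0 {x : E3} : x ∈ Fc 0 ↔ (x 2 = 0 ∧ |x 0| ≤ 1 ∧ |x 1| ≤ 23) := by
  have e : ⟪N 0, x⟫ = - x 2 := by rw [inner_N]; simp [nx, ny, nz]
  simp only [Fc, mem_ofPred_eq, mem_P, cons_iff, e]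
  constructor
  · rintro ⟨h, h2⟩
    have h2 : x 2 = 0 := by simpa [cc] using h2
    refine ⟨h2, ?_, ?_⟩
    · rw [abs_le]; constructor <;> linarith [h.h1, h.h2]
    · rw [abs_le]; constructor <;> linarith [h.h5, h.h6]
  · rintro ⟨h2, h0, h1⟩
    rw [abs_le] at h0 h1
    refine ⟨?_, by simp [cc, h2]⟩
    rw [h2]
    constructor <;> linarith

lemma span_F0 : vectorSpan ℝ (Fc 0) = ((ℝ ∙ N 0)ᗮ : Submodule ℝ E3) := by
  apply le_antisymm
  · rw [vectorSpan_def, Submodule.span_le]
    rintro v ⟨x, hx, y, hy, rfl⟩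
    rw [SetLike.mem_coe, Submodule.mem_orthogonal_singleton_iff_inner_right]
    simp only [vsub_eq_sub, inner_sub_right, hx.2, hy.2, sub_self]
  · intro v hv
    rw [Submodule.mem_orthogonal_singleton_iff_inner_right, inner_N] at hv
    have hv2 : v 2 = 0 := by simpa [nx, ny, nz] using hv
    have m0 : (0 : E3) ∈ Fc 0 := by rw [mem_F0]; simp
    have m1 : (!₂[1, 0, 0] : E3) ∈ Fc 0 := by rw [mem_F0]; simp
    have m2 : (!₂[0, 1, 0] : E3) ∈ Fc 0 := by rw [mem_F0]; simp
    have s1 := vsub_mem_vectorSpan ℝ m1 m0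
    have s2 := vsub_mem_vectorSpan ℝ m2 m0
    simp only [vsub_eq_sub, sub_zero] at s1 s2
    have : v = v 0 • (!₂[1, 0, 0] : E3) + v 1 • (!₂[0, 1, 0] : E3) := by
      ext j; fin_cases j <;> simp [hv2]
    rw [this]
    exact Submodule.add_mem _ (Submodule.smul_mem _ _ s1) (Submodule.smul_mem _ _ s2)

lemma face_F0 : IsFace P (Fc 0) :=
  ⟨N 0, (cc 0 : ℝ), N_ne_zero 0, fun x hx => hx 0, rfl, by rw [span_F0, finrank_perp]⟩

lemma zero_mem_F0 : (0 : E3) ∈ intrinsicInterior ℝ (Fc 0) := by
  rw [mem_intrinsicInterior]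
  have m0 : (0 : E3) ∈ Fc 0 := by rw [mem_F0]; simp
  refine ⟨⟨0, subset_affineSpan ℝ _ m0⟩, ?_, rfl⟩
  rw [mem_interior]
  refine ⟨{y | ‖(y : E3)‖ < 1}, ?_, ?_, by simp⟩
  · rintro ⟨y, hy⟩ hlt
    have hlt : ‖y‖ < 1 := hlt
    show y ∈ Fc 0
    have hyv : y ∈ vectorSpan ℝ (Fc 0) := by
      have := AffineSubspace.vsub_mem_direction hy (subset_affineSpan ℝ _ m0)
      rw [direction_affineSpan] at this
      simpa using this
    rw [span_F0, Submodule.mem_orthogonal_singleton_iff_inner_right, inner_N] at hyv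
    have hv2 : y 2 = 0 := by simpa [nx, ny, nz] using hyv
    have c0 : |y 0| ≤ ‖y‖ := by simpa using PiLp.norm_apply_le y 0
    have c1 : |y 1| ≤ ‖y‖ := by simpa using PiLp.norm_apply_le y 1
    rw [mem_F0]
    exact ⟨hv2, by linarith, by linarith⟩
  · exact isOpen_lt (by fun_prop) continuous_const

lemma diam_F0 : Metric.diam (Fc 0) ≤ Real.sqrt 2120 := by
  apply Metric.diam_le_of_forall_dist_le (Real.sqrt_nonneg _)
  intro x hx y hy
  rw [mem_F0] at hx hy
  obtain ⟨x2, x0, x1⟩ := hx
  obtain ⟨y2, y0, y1⟩ := hy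
  rw [abs_le] at x0 x1 y0 y1
  rw [EuclideanSpace.dist_eq]
  apply Real.sqrt_le_sqrt
  simp only [Fin.sum_univ_three, Real.dist_eq, sq_abs, x2, y2]
  have a : (x 0 - y 0) ^ 2 ≤ 2 ^ 2 := by
    apply sq_le_sq' <;> linarith
  have b : (x 1 - y 1) ^ 2 ≤ 46 ^ 2 := by
    apply sq_le_sq' <;> linarith
  linarith

def px : Fin 21 → ℤ := ![0, 1, -1, 2246, -2246, 100, 100, 100, 100, 100, 100, 100, 100, 100, 100,
  100, 100, 100, 100, 100, 100]
def py : Fin 21 → ℤ := ![0, 0, 0, 0, 0, 37, -37, 37, -37, 50, -50, 55, -55, 56, -56, 51, -51,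
  42, -42, 25, -25]
def pz : Fin 21 → ℤ := ![0, 0, 0, 1, 1, 8, 8, 8, 8, 23, 23, 37, 37, 55, 55, 74, 74, 88, 88,
  103, 103]
def qx : Fin 21 → ℤ := ![0, 2246, -2246, 266, -266, -100, -100, -100, -100, -100, -100, -100,
  -100, -100, -100, -100, -100, -100, -100, -100, -100]
def qz : Fin 21 → ℤ := ![0, 1, 1, 100, 100, 8, 8, 8, 8, 23, 23, 37, 37, 55, 55, 74, 74, 88, 88,
  103, 103]

lemma wit_p : ∀ i j, nx j * px i + ny j * py i + nz j * pz i ≤ cc j := by decide +kernel
lemma wit_q : ∀ i j, nx j * qx i + ny j * py i + nz j * qz i ≤ cc j := by decide +kernel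
lemma wit_pe : ∀ i, nx i * px i + ny i * py i + nz i * pz i = cc i := by decide +kernel
lemma wit_qe : ∀ i, nx i * qx i + ny i * py i + nz i * qz i = cc i := by decide +kernel
lemma wit_d : ∀ i, i ≠ 0 → 2120 < (px i - qx i) ^ 2 + (pz i - qz i) ^ 2 := by decide +kernel

lemma diam_Fc (i : Fin 21) (hi : i ≠ 0) : Real.sqrt 2120 < Metric.diam (Fc i) := by
  have hb : Bornology.IsBounded (Fc i) := P_bounded.subset fun x hx => hx.1
  have hp : (!₂[(px i : ℝ), (py i : ℝ), (pz i : ℝ)] : E3) ∈ Fc i := by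
    refine ⟨fun j => ?_, ?_⟩
    · rw [inner_N]; simp only [Matrix.cons_val]
      exact_mod_cast wit_p i j
    · rw [inner_N]; simp only [Matrix.cons_val]
      exact_mod_cast wit_pe i
  have hq : (!₂[(qx i : ℝ), (py i : ℝ), (qz i : ℝ)] : E3) ∈ Fc i := by
    refine ⟨fun j => ?_, ?_⟩
    · rw [inner_N]; simp only [Matrix.cons_val]
      exact_mod_cast wit_q i j
    · rw [inner_N]; simp only [Matrix.cons_val]
      exact_mod_cast wit_qe i
  refine lt_of_lt_of_le ?_ (Metric.dist_le_diam_of_mem hb hp hq)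
  rw [EuclideanSpace.dist_eq]
  apply Real.sqrt_lt_sqrt (by norm_num)
  simp only [Fin.sum_univ_three, Real.dist_eq, sq_abs, Matrix.cons_val]
  have := wit_d i hi
  have h2 : (2120 : ℝ) < ((px i : ℝ) - qx i) ^ 2 + ((pz i : ℝ) - qz i) ^ 2 := by
    exact_mod_cast this
  linarith [sq_nonneg ((py i : ℝ) - py i)]

/-! ### the centroid -/

lemma integral_coord (j : Fin 3) : (∫ x in P, x) j = ∫ x in P, x j := by
  have hint : Integrable (fun x : E3 => x) (volume.restrict P) :=
    continuous_id.continuousOn.integrableOn_compact P_compact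
  have := (EuclideanSpace.proj j : E3 →L[ℝ] ℝ).integral_comp_comm hint
  simpa using this.symm

lemma centroid_coord (j : Fin 3) :
    (centroid P) j = (volume P).toReal⁻¹ * ∫ x in P, x j := by
  rw [← integral_coord]; rfl

/-- rotation by a half turn about the third axis -/
noncomputable def R : E3 ≃ₗᵢ[ℝ] E3 :=
  LinearIsometryEquiv.piLpCongrRight 2
    ![LinearIsometryEquiv.neg ℝ, LinearIsometryEquiv.neg ℝ, LinearIsometryEquiv.refl ℝ ℝ]

lemma R0 (x : E3) : R x 0 = - x 0 := by simp [R]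
lemma R1 (x : E3) : R x 1 = - x 1 := by simp [R]
lemma R2 (x : E3) : R x 2 = x 2 := by simp [R]

lemma R_P : R ⁻¹' P = P := by
  ext x
  rw [mem_preimage, mem_P, mem_P, R0, R1, R2, cons_iff, cons_iff]
  constructor
  · rintro ⟨h0, h1, h2, h3, h4, h5, h6, h7, h8, h9, h10, h11, h12, h13, h14, h15, h16, h17, h18,
      h19, h20⟩
    constructor <;> linarith
  · rintro ⟨h0, h1, h2, h3, h4, h5, h6, h7, h8, h9, h10, h11, h12, h13, h14, h15, h16, h17, h18,
      h19, h20⟩
    constructor <;> linarith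

lemma int_zero {f : E3 → ℝ} (hf : ∀ x, f (R x) = - f x) : ∫ x in P, f x = 0 := by
  have h := R.measurePreserving.setIntegral_preimage_emb
    R.toHomeomorph.measurableEmbedding f P
  rw [R_P] at h
  simp only [hf] at h
  rw [integral_neg] at h
  linarith

lemma centroid0 : (centroid P) 0 = 0 := by
  rw [centroid_coord, int_zero (fun x => R0 x), mul_zero]
lemma centroid1 : (centroid P) 1 = 0 := by
  rw [centroid_coord, int_zero (fun x => R1 x), mul_zero]

lemma centroid2_nonneg : 0 ≤ (centroid P) 2 := by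
  rw [centroid_coord]
  apply mul_nonneg (inv_nonneg.2 ENNReal.toReal_nonneg)
  apply setIntegral_nonneg P_closed.measurableSet
  intro x hx
  exact (cons_iff.1 (mem_P.1 hx)).h0

/-- horizontal slices -/
def Sl (z : ℝ) : Set (Fin 2 → ℝ) := {w | Cons (w 0) (w 1) z}
def Q : Set (ℝ × (Fin 2 → ℝ)) := {p | Cons (p.2 0) (p.2 1) p.1}

noncomputable def ee : E3 ≃ᵐ ℝ × (Fin 2 → ℝ) :=
  (MeasurableEquiv.toLp 2 (Fin 3 → ℝ)).symm.trans (MeasurableEquiv.piFinSuccAbove (fun _ => ℝ) 2)

lemma ee_mp : MeasurePreserving ee volume volume :=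
  (volume_preserving_piFinSuccAbove (fun _ : Fin 3 => ℝ) 2).comp (PiLp.volume_preserving_ofLp (Fin 3))

lemma ee_apply1 (x : E3) : (ee x).1 = x 2 := rfl
lemma ee_apply20 (x : E3) : (ee x).2 0 = x 0 := rfl
lemma ee_apply21 (x : E3) : (ee x).2 1 = x 1 := rfl

lemma ee_Q : ee ⁻¹' Q = P := by
  ext x
  rw [mem_P]; rfl

lemma Q_meas : MeasurableSet Q := by
  rw [← ee.measurableSet_preimage, ee_Q]
  exact P_closed.measurableSet

noncomputable def H (z : ℝ) : ℝ := (volume (Sl z)).toReal * (z - 40)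

lemma fub_int : Integrable (Q.indicator (fun p => p.1 - 40)) (volume.prod volume) := by
  rw [integrable_indicator_iff Q_meas]
  rw [← Measure.volume_eq_prod]
  rw [← ee_mp.integrableOn_comp_preimage ee.measurableEmbedding, ee_Q]
  apply ContinuousOn.integrableOn_compact P_compact
  apply Continuous.continuousOn
  show Continuous fun x : E3 => x 2 - 40
  fun_prop

lemma inner_int (z : ℝ) : ∫ w, Q.indicator (fun p => p.1 - 40) (z, w) = H z := by
  have : (fun w : Fin 2 → ℝ => Q.indicator (fun p => p.1 - 40) (z, w))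
      = (Sl z).indicator (fun _ => z - 40) := by
    funext w
    by_cases hw : w ∈ Sl z
    · rw [indicator_of_mem hw, indicator_of_mem (show (z, w) ∈ Q from hw)]
    · rw [indicator_of_notMem hw, indicator_of_notMem (show (z, w) ∉ Q from hw)]
  rw [this, integral_indicator, setIntegral_const]
  · rfl
  · exact measurable_prodMk_left Q_meas

lemma H_int : Integrable H := by
  have := fub_int.integral_prod_left
  simpa only [inner_int] using this

lemma int_P : ∫ x in P, (x 2 - 40) = ∫ z, H z := by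
  have h := ee_mp.setIntegral_preimage_emb ee.measurableEmbedding (fun p => p.1 - 40) Q
  rw [ee_Q] at h
  have h2 : ∫ p in Q, (p.1 - 40) = ∫ p, Q.indicator (fun p => p.1 - 40) p :=
    (integral_indicator Q_meas).symm
  have h3 := integral_prod _ fub_int
  rw [← Measure.volume_eq_prod] at h3
  simp only [inner_int] at h3
  rw [← h3, ← h2, ← h]
  rfl

lemma vol_Sl {z f b : ℝ} (hf : 0 ≤ f) (hb : 0 ≤ b)
    (h : ∀ x y, Cons x y z ↔ (-f ≤ x ∧ x ≤ f) ∧ (-b ≤ y ∧ y ≤ b)) :
    (volume (Sl z)).toReal = 4 * f * b := by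
  have : Sl z = Icc (![-f, -b] : Fin 2 → ℝ) ![f, b] := by
    ext w
    simp only [Sl, mem_ofPred_eq, h, mem_Icc, Pi.le_def, Fin.forall_fin_two, Matrix.cons_val_zero,
      Matrix.cons_val_one]
    tauto
  rw [this, Real.volume_Icc_pi_toReal]
  · simp only [Fin.prod_univ_two, Matrix.cons_val_zero, Matrix.cons_val_one]
    ring
  · intro j
    fin_cases j <;> simp <;> linarith

lemma int_poly (a b d0 d1 d2 d3 : ℝ) :
    ∫ z in a..b, (d0 + d1 * z + d2 * z ^ 2 + d3 * z ^ 3) =
      d0 * (b - a) + d1 * (b ^ 2 - a ^ 2) / 2 + d2 * (b ^ 3 - a ^ 3) / 3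
        + d3 * (b ^ 4 - a ^ 4) / 4 := by
  have hd : ∀ x ∈ uIcc a b, HasDerivAt
      (fun z : ℝ => d0 * z + d1 * z ^ 2 / 2 + d2 * z ^ 3 / 3 + d3 * z ^ 4 / 4)
      (d0 + d1 * x + d2 * x ^ 2 + d3 * x ^ 3) x := by
    intro x _
    have h1 := (hasDerivAt_id x).const_mul d0
    have h2 := ((hasDerivAt_pow 2 x).const_mul d1).div_const 2
    have h3 := ((hasDerivAt_pow 3 x).const_mul d2).div_const 3
    have h4 := ((hasDerivAt_pow 4 x).const_mul d3).div_const 4
    have h5 := ((h1.add h2).add h3).add h4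
    refine HasDerivAt.congr_deriv (f' := d0 * 1 + d1 * ((2 : ℕ) * x ^ (2 - 1)) / 2
      + d2 * ((3 : ℕ) * x ^ (3 - 1)) / 3 + d3 * ((4 : ℕ) * x ^ (4 - 1)) / 4) h5 ?_
    norm_num
    ring
  rw [intervalIntegral.integral_eq_sub_of_hasDerivAt hd]
  · ring
  · apply Continuous.intervalIntegrable
    fun_prop

lemma piece0 : ∫ z in (1 : ℝ)..8, H z = (-198822169 / 3) := by
  have hc : ∫ z in (1 : ℝ)..8, H z = ∫ z in (1 : ℝ)..8,
      ((-8338880) + (-352408) * z + (19622) * z ^ 2 + (-140) * z ^ 3) := by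
    apply intervalIntegral.integral_congr
    intro z hz
    rw [uIcc_of_le (by norm_num)] at hz
    obtain ⟨ha, hb⟩ := hz
    show H z = _
    have hv := vol_Sl (z := z) (f := 2266 - 20 * z) (b := ((23) + (7 / 4) * z))
      (by linarith) (by linarith) (fun x y => by
        rw [cons_iff]
        constructor
        · intro h
          have := h.h3
          have := h.h4
          have := h.h5
          have := h.h6
          refine ⟨⟨by linarith, by linarith⟩, ⟨by linarith, by linarith⟩⟩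
        · rintro ⟨⟨h1, h2⟩, ⟨h3, h4⟩⟩
          constructor <;> linarith)
    rw [H, hv]
    ring
  rw [hc, int_poly]
  norm_num

lemma piece1 : ∫ z in (8 : ℝ)..23, H z = (-123670320) := by
  have hc : ∫ z in (8 : ℝ)..23, H z = ∫ z in (8 : ℝ)..23,
      ((-32702912 / 3) + (817784 / 15) * z + (123352 / 15) * z ^ 2 + (-208 / 3) * z ^ 3) := by
    apply intervalIntegral.integral_congr
    intro z hz
    rw [uIcc_of_le (by norm_num)] at hz
    obtain ⟨ha, hb⟩ := hz
    show H z = _
    have hv := vol_Sl (z := z) (f := 2266 - 20 * z) (b := ((451 / 15) + (13 / 15) * z))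
      (by linarith) (by linarith) (fun x y => by
        rw [cons_iff]
        constructor
        · intro h
          have := h.h3
          have := h.h4
          have := h.h7
          have := h.h8
          refine ⟨⟨by linarith, by linarith⟩, ⟨by linarith, by linarith⟩⟩
        · rintro ⟨⟨h1, h2⟩, ⟨h3, h4⟩⟩
          constructor <;> linarith)
    rw [H, hv]
    ring
  rw [hc, int_poly]
  norm_num

lemma piece2 : ∫ z in (23 : ℝ)..37, H z = (-49331240) := by
  have hc : ∫ z in (23 : ℝ)..37, H z = ∫ z in (23 : ℝ)..37,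
      ((-106048800 / 7) + (2680820 / 7) * z + (7260 / 7) * z ^ 2 + (-200 / 7) * z ^ 3) := by
    apply intervalIntegral.integral_congr
    intro z hz
    rw [uIcc_of_le (by norm_num)] at hz
    obtain ⟨ha, hb⟩ := hz
    show H z = _
    have hv := vol_Sl (z := z) (f := 2266 - 20 * z) (b := ((585 / 14) + (5 / 14) * z))
      (by linarith) (by linarith) (fun x y => by
        rw [cons_iff]
        constructor
        · intro h
          have := h.h3
          have := h.h4
          have := h.h9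
          have := h.h10
          refine ⟨⟨by linarith, by linarith⟩, ⟨by linarith, by linarith⟩⟩
        · rintro ⟨⟨h1, h2⟩, ⟨h3, h4⟩⟩
          constructor <;> linarith)
    rw [H, hv]
    ring
  rw [hc, int_poly]
  norm_num

lemma piece3 : ∫ z in (37 : ℝ)..55, H z = (30246264) := by
  have hc : ∫ z in (37 : ℝ)..55, H z = ∫ z in (37 : ℝ)..55,
      ((-172759840 / 9) + (5662516 / 9) * z + (-31988 / 9) * z ^ 2 + (-40 / 9) * z ^ 3) := by
    apply intervalIntegral.integral_congr
    intro z hz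
    rw [uIcc_of_le (by norm_num)] at hz
    obtain ⟨ha, hb⟩ := hz
    show H z = _
    have hv := vol_Sl (z := z) (f := 2266 - 20 * z) (b := ((953 / 18) + (1 / 18) * z))
      (by linarith) (by linarith) (fun x y => by
        rw [cons_iff]
        constructor
        · intro h
          have := h.h3
          have := h.h4
          have := h.h11
          have := h.h12
          refine ⟨⟨by linarith, by linarith⟩, ⟨by linarith, by linarith⟩⟩
        · rintro ⟨⟨h1, h2⟩, ⟨h3, h4⟩⟩
          constructor <;> linarith)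
    rw [H, hv]
    ring
  rw [hc, int_poly]
  norm_num

lemma piece4 : ∫ z in (55 : ℝ)..74, H z = (283462216 / 3) := by
  have hc : ∫ z in (55 : ℝ)..74, H z = ∫ z in (55 : ℝ)..74,
      ((-485467840 / 19) + (18234296 / 19) * z + (-168440 / 19) * z ^ 2 + (400 / 19) * z ^ 3) := by
    apply intervalIntegral.integral_congr
    intro z hz
    rw [uIcc_of_le (by norm_num)] at hz
    obtain ⟨ha, hb⟩ := hz
    show H z = _
    have hv := vol_Sl (z := z) (f := 2266 - 20 * z) (b := ((1339 / 19) + (-5 / 19) * z))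
      (by linarith) (by linarith) (fun x y => by
        rw [cons_iff]
        constructor
        · intro h
          have := h.h3
          have := h.h4
          have := h.h13
          have := h.h14
          refine ⟨⟨by linarith, by linarith⟩, ⟨by linarith, by linarith⟩⟩
        · rintro ⟨⟨h1, h2⟩, ⟨h3, h4⟩⟩
          constructor <;> linarith)
    rw [H, hv]
    ring
  rw [hc, int_poly]
  norm_num

lemma piece5 : ∫ z in (74 : ℝ)..88, H z = (68221216) := by
  have hc : ∫ z in (74 : ℝ)..88, H z = ∫ z in (74 : ℝ)..88,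
      ((-250166400 / 7) + (10093680 / 7) * z + (-110388 / 7) * z ^ 2 + (360 / 7) * z ^ 3) := by
    apply intervalIntegral.integral_congr
    intro z hz
    rw [uIcc_of_le (by norm_num)] at hz
    obtain ⟨ha, hb⟩ := hz
    show H z = _
    have hv := vol_Sl (z := z) (f := 2266 - 20 * z) (b := ((690 / 7) + (-9 / 14) * z))
      (by linarith) (by linarith) (fun x y => by
        rw [cons_iff]
        constructor
        · intro h
          have := h.h3
          have := h.h4
          have := h.h15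
          have := h.h16
          refine ⟨⟨by linarith, by linarith⟩, ⟨by linarith, by linarith⟩⟩
        · rintro ⟨⟨h1, h2⟩, ⟨h3, h4⟩⟩
          constructor <;> linarith)
    rw [H, hv]
    ring
  rw [hc, int_poly]
  norm_num

lemma piece6 : ∫ z in (88 : ℝ)..103, H z = (39921180) := by
  have hc : ∫ z in (88 : ℝ)..103, H z = ∫ z in (88 : ℝ)..103,
      ((-154160512 / 3) + (32236784 / 15) * z + (-378568 / 15) * z ^ 2 + (272 / 3) * z ^ 3) := by
    apply intervalIntegral.integral_congr
    intro z hz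
    rw [uIcc_of_le (by norm_num)] at hz
    obtain ⟨ha, hb⟩ := hz
    show H z = _
    have hv := vol_Sl (z := z) (f := 2266 - 20 * z) (b := ((2126 / 15) + (-17 / 15) * z))
      (by linarith) (by linarith) (fun x y => by
        rw [cons_iff]
        constructor
        · intro h
          have := h.h3
          have := h.h4
          have := h.h17
          have := h.h18
          refine ⟨⟨by linarith, by linarith⟩, ⟨by linarith, by linarith⟩⟩
        · rintro ⟨⟨h1, h2⟩, ⟨h3, h4⟩⟩
          constructor <;> linarith)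
    rw [H, hv]
    ring
  rw [hc, int_poly]
  norm_num

lemma piece7 : ∫ z in (103 : ℝ)..113, H z = (13697000 / 3) := by
  have hc : ∫ z in (103 : ℝ)..113, H z = ∫ z in (103 : ℝ)..113,
      ((-102423200) + (4370980) * z + (-53260) * z ^ 2 + (200) * z ^ 3) := by
    apply intervalIntegral.integral_congr
    intro z hz
    rw [uIcc_of_le (by norm_num)] at hz
    obtain ⟨ha, hb⟩ := hz
    show H z = _
    have hv := vol_Sl (z := z) (f := 2266 - 20 * z) (b := ((565 / 2) + (-5 / 2) * z))
      (by linarith) (by linarith) (fun x y => by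
        rw [cons_iff]
        constructor
        · intro h
          have := h.h3
          have := h.h4
          have := h.h19
          have := h.h20
          refine ⟨⟨by linarith, by linarith⟩, ⟨by linarith, by linarith⟩⟩
        · rintro ⟨⟨h1, h2⟩, ⟨h3, h4⟩⟩
          constructor <;> linarith)
    rw [H, hv]
    ring
  rw [hc, int_poly]
  norm_num

lemma H_nonpos {z : ℝ} (hz : z ≤ 1) : H z ≤ 0 :=
  mul_nonpos_of_nonneg_of_nonpos ENNReal.toReal_nonneg (by linarith)

lemma H_zero {z : ℝ} (hz : 113 < z) : H z = 0 := by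
  have : Sl z = ∅ := by
    ext w
    simp only [Sl, mem_ofPred_eq, mem_empty_iff_false, iff_false, cons_iff]
    intro h
    linarith [h.h19, h.h20]
  rw [H, this]
  simp

lemma int_H : ∫ z, H z ≤ 0 := by
  have I : ∀ a b : ℝ, IntervalIntegrable H volume a b := fun a b => H_int.intervalIntegrable
  have h1 := integral_add_compl (measurableSet_Iic (a := (1 : ℝ))) H_int
  rw [compl_Iic] at h1
  have h2 : ∫ z in Iic (1 : ℝ), H z ≤ 0 :=
    setIntegral_nonpos measurableSet_Iic fun z hz => H_nonpos hz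
  have h3 : ∫ z in Ioi (1 : ℝ), H z = ∫ z in Ioc (1 : ℝ) 113, H z := by
    apply setIntegral_eq_of_subset_of_forall_sdiff_eq_zero measurableSet_Ioi
      (fun z hz => hz.1)
    rintro z ⟨hz1, hz2⟩
    apply H_zero
    by_contra hcon
    exact hz2 ⟨hz1, not_lt.1 hcon⟩
  rw [← intervalIntegral.integral_of_le (by norm_num)] at h3
  have e1 := intervalIntegral.integral_add_adjacent_intervals (I 1 8) (I 8 23)
  have e2 := intervalIntegral.integral_add_adjacent_intervals (I 1 23) (I 23 37)
  have e3 := intervalIntegral.integral_add_adjacent_intervals (I 1 37) (I 37 55)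
  have e4 := intervalIntegral.integral_add_adjacent_intervals (I 1 55) (I 55 74)
  have e5 := intervalIntegral.integral_add_adjacent_intervals (I 1 74) (I 74 88)
  have e6 := intervalIntegral.integral_add_adjacent_intervals (I 1 88) (I 88 103)
  have e7 := intervalIntegral.integral_add_adjacent_intervals (I 1 103) (I 103 113)
  rw [piece0, piece1] at e1
  rw [piece2] at e2
  rw [piece3] at e3
  rw [piece4] at e4
  rw [piece5] at e5
  rw [piece6] at e6
  rw [piece7] at e7
  linarith

lemma centroid2_le : (centroid P) 2 ≤ 40 := by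
  have hfin : volume P < ⊤ := P_compact.measure_lt_top
  have hpos : 0 < (volume P).toReal :=
    ENNReal.toReal_pos ((isOpen_interior.measure_pos volume P_interior).trans_le
      (measure_mono interior_subset)).ne' hfin.ne
  have h1 : ∫ x in P, (x 2 - 40) = (∫ x in P, x 2) - (volume P).toReal * 40 := by
    rw [integral_sub, setIntegral_const]
    · rfl
    · apply ContinuousOn.integrableOn_compact P_compact
      apply Continuous.continuousOn
      show Continuous fun x : E3 => x 2
      fun_prop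
    · exact integrableOn_const hfin.ne
  rw [int_P] at h1
  have h2 := int_H
  rw [centroid_coord, inv_mul_le_iff₀ hpos]
  linarith

/-- There is a convex polyhedron (of uniform density) that is stable on exactly one face, and this
resting face has smaller diameter than every other face. -/
theorem result : ∃ P F₀ : Set E3, IsConvexPolyhedron P ∧ IsFace P F₀ ∧ StableOn P F₀ ∧
    (∀ F, IsFace P F → StableOn P F → F = F₀) ∧
    (∀ F, IsFace P F → F ≠ F₀ → Metric.diam F₀ < Metric.diam F) := by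
  refine ⟨P, Fc 0, P_poly, face_F0, ⟨0, zero_mem_F0, ?_⟩, ?_, ?_⟩
  · intro v hv
    rw [span_F0, Submodule.mem_orthogonal_singleton_iff_inner_right, inner_N] at hv
    have hv2 : v 2 = 0 := by simpa [nx, ny, nz] using hv
    rw [sub_zero, inner_coord, centroid0, centroid1, hv2]
    ring
  · intro F hF hst
    obtain ⟨i, hFi, hspan⟩ := face_class hF
    by_cases hi : i = 0
    · rw [hFi, hi]; rfl
    · exfalso
      obtain ⟨q, hq, hperp⟩ := hst
      have hqF : q ∈ F := intrinsicInterior_subset hq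
      rw [hspan] at hperp
      rw [hFi] at hqF
      exact foot_absurd i hi centroid0 centroid1 centroid2_nonneg centroid2_le hqF.1 hqF.2 hperp
  · intro F hF hne
    obtain ⟨i, hFi, hspan⟩ := face_class hF
    by_cases hi : i = 0
    · exact absurd (by rw [hFi, hi]; rfl) hne
    · rw [hFi]
      exact lt_of_le_of_lt diam_F0 (diam_Fc i hi)

end Pool.Agent.Results.MP_5eb3ac_co.LeastRestingFace
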